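import Pool.Agent.W424.KI.Stm
import Pool.Agent.H160R2.MU.T_BADP

/-!
Project KI, task BADK: the bad events have small probability, for arbitrarily large `M3`
(planar version of `KZ.t_BADK`).
-/

set_option autoImplicit false

namespace Pool.Agent.W450.KI
open H974 H906.Cyl Finset
open H12S (Dir hbE segD rimE H4 Crs Nr PQ Win win_half win_arm_of win_blk
  H4_bound)
open H12S.EP2 (pr_biUnion choose_M)
open Pool.Agent.H160R2.MU.TBADP (Pr_map cn Crs_loc H4_loc hbE_RE dco_edz sum_edz)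
open Pool.Agent.W424.KI

namespace BADK

/-- the edge which decides `e` -/
def gm (c : ℕ) (e : Edg) : Edg := edz (e.1 + e.2.1 + c) (dco e)

theorem gm_inj (c : ℕ) : Function.Injective (gm c) := by
  intro e e' h
  obtain ⟨h1, h2⟩ := edz_inj h
  rw [← edz_of e, ← edz_of e', h2]
  congr 1
  omega

theorem gm_zero (e : Edg) : gm 0 e = e := by
  unfold gm
  rw [Nat.cast_zero, add_zero]
  exact edz_of e

theorem gm_mem {c R : ℕ} (hc : c < 2) {a b s : ℤ} {e : Edg}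
    (he : e ∈ RE (a - s) (a + s) (b - s) (b + s)) (ha : |a| + s + 1 ≤ R) (hb : |b| + s + 1 ≤ R) :
    gm c e ∈ boxE R := by
  have a1 := le_abs_self a
  have a2 := neg_abs_le a
  have b1 := le_abs_self b
  have b2 := neg_abs_le b
  unfold boxE
  interval_cases c
  · rw [gm_zero]
    obtain ⟨x, y, bo⟩ := e
    cases bo <;> simp only [mem_RE_false, mem_RE_true] at he ⊢ <;> omega
  · obtain ⟨x, y, bo⟩ := e
    cases bo
    · have e1 : gm 1 (x, y, false) = (x, y + 1, true) := by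
        unfold gm edz dco
        simp only [Bool.false_eq_true, if_false, Nat.cast_one]
        rw [if_pos (by omega)]
        simp only [Prod.mk.injEq, and_true]
        omega
      rw [e1]
      simp only [mem_RE_false, mem_RE_true] at he ⊢
      omega
    · have e1 : gm 1 (x, y, true) = (x + 1, y, false) := by
        unfold gm edz dco
        simp only [if_true, Nat.cast_one]
        rw [if_neg (by omega)]
        simp only [Prod.mk.injEq, and_true]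
        omega
      rw [e1]
      simp only [mem_RE_false, mem_RE_true] at he ⊢
      omega

theorem mem_Cp0 {F : Finset Edg} {e : Edg} : e ∈ Cp 0 (↑F : Set Edg) ↔ gm 0 e ∈ F := by
  rw [gm_zero]
  unfold Cp
  simp

theorem mem_Cp1 {F : Finset Edg} {e : Edg} : e ∈ Cp 1 (↑F : Set Edg) ↔ gm 1 e ∉ F := by
  unfold Cp gm
  simp

theorem transport {c R : ℕ} (hc : c < 2) {B : Finset Edg}
    (hB : ∀ e ∈ B, gm c e ∈ boxE R) (A : Set Edg → Prop) :
    PF R (fun F => A (Cp c (↑F : Set Edg) ∩ ↑B)) = Pr (fun _ => (1 / 2 : ℝ)) B (fun F => A ↑F) := by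
  have hsub : B.image (gm c) ⊆ boxE R := by
    intro x hx
    obtain ⟨e, he, rfl⟩ := Finset.mem_image.1 hx
    exact hB e he
  have hmap := Pr_map (q := 1 / 2) ((gm_inj c).injOn) hsub (fun F => A ↑F)
  rw [← hmap]
  unfold PF
  interval_cases c
  · apply Pr_congr
    intro F _
    have : Cp 0 (↑F : Set Edg) ∩ ↑B = (↑(B.filter (fun e => gm 0 e ∈ F)) : Set Edg) := by
      ext e
      rw [Set.mem_inter_iff, mem_Cp0, Finset.mem_coe, Finset.mem_coe, Finset.mem_filter]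
      tauto
    rw [this]
  · have h2 := Pr_compl (fun _ => (1 / 2 : ℝ)) (boxE R)
      (fun F => A ↑(B.filter (fun e => gm 1 e ∈ F)))
    have h3 : (fun _ : Edg => 1 - (1 / 2 : ℝ)) = (fun _ => (1 / 2 : ℝ)) := by
      funext _; norm_num
    rw [h3] at h2
    rw [h2]
    apply Pr_congr
    intro F _
    have : Cp 1 (↑F : Set Edg) ∩ ↑B = (↑(B.filter (fun e => gm 1 e ∈ boxE R \ F)) : Set Edg) := by
      ext e
      rw [Set.mem_inter_iff, mem_Cp1, Finset.mem_coe, Finset.mem_coe, Finset.mem_filter,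
        Finset.mem_sdiff]
      constructor
      · rintro ⟨a3, a4⟩
        exact ⟨a4, hB e a4, a3⟩
      · rintro ⟨a4, _, a3⟩
        exact ⟨a3, a4⟩
    rw [this]

theorem bd_i {L r l M4 : ℕ} (hl : 1 ≤ l) (hr : r ≤ 2 * M4 * l) {i : ℤ}
    (h : |(l : ℤ) * i| ≤ L * r + 1) : |i| ≤ ((2 * L * M4 + 1 : ℕ) : ℤ) := by
  apply H12S.FP2.abs_bound hl
  refine h.trans ?_
  have h4 : L * r + 1 ≤ (2 * L * M4 + 1) * l := by
    have : L * r ≤ L * (2 * M4 * l) := Nat.mul_le_mul_left _ hr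
    calc L * r + 1 ≤ L * (2 * M4 * l) + l := by omega
      _ = (2 * L * M4 + 1) * l := by ring
  exact_mod_cast h4

theorem bd_j {L r : ℕ} (hr : 1 ≤ r) {j : ℤ}
    (h : |(r : ℤ) * j| ≤ L * r + 2) : |j| ≤ ((L + 2 : ℕ) : ℤ) := by
  apply H12S.FP2.abs_bound hr
  refine h.trans ?_
  have h4 : L * r + 2 ≤ (L + 2) * r := by
    have : (L + 2) * r = L * r + 2 * r := by ring
    omega
  exact_mod_cast h4

theorem cover2 {L r l M4 : ℕ} (hl : 1 ≤ l) (hr1 : 1 ≤ r) (hr : r ≤ 2 * M4 * l)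
    {d : Dir} {x0 y0 i j : ℤ} (h1 : |x0| ≤ (L : ℤ) * r + 1 ∧ |y0| ≤ (L : ℤ) * r + 1)
    (h2 : ((d = Dir.up ∨ d = Dir.dn) ∧ x0 = l * i ∧ (y0 = r * j ∨ y0 = r * j - 1)) ∨
      ((d = Dir.rt ∨ d = Dir.lf) ∧ y0 = l * i ∧ (x0 = r * j ∨ x0 = r * j - 1))) :
    ∃ p ∈ (univ : Finset Dir) ×ˢ (Icc (-((L + 2 : ℕ) : ℤ)) ((L + 2 : ℕ) : ℤ) ×ˢ (Icc (0 : ℤ) 1 ×ˢ
      Icc (-((2 * L * M4 + 1 : ℕ) : ℤ)) ((2 * L * M4 + 1 : ℕ) : ℤ))),
      p.1 = d ∧ cn l r p.1 p.2.1 p.2.2.1 p.2.2.2 = (x0, y0) := by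
  obtain ⟨hx1, hy1⟩ := h1
  rcases h2 with ⟨hd, hx, hy⟩ | ⟨hd, hy, hx⟩
  · have hyo : ∃ o : ℤ, (0 ≤ o ∧ o ≤ 1) ∧ y0 = r * j - o := by
      rcases hy with hy | hy
      · exact ⟨0, ⟨le_rfl, by norm_num⟩, by rw [hy]; ring⟩
      · exact ⟨1, ⟨by norm_num, le_rfl⟩, hy⟩
    obtain ⟨o, ho, hyo⟩ := hyo
    have hi := bd_i (L := L) hl hr (i := i) (by rw [← hx]; exact hx1)
    have hj := bd_j (L := L) hr1 (j := j) (by
      have : (r : ℤ) * j = y0 + o := by rw [hyo]; ring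
      rw [this]
      rw [abs_le] at hy1 ⊢
      constructor <;> linarith [ho.1, ho.2])
    refine ⟨(d, (j, (o, i))), ?_, rfl, ?_⟩
    · rw [abs_le] at hi hj
      simp only [mem_product, mem_univ, mem_Icc, true_and]
      exact ⟨hj, ho, hi⟩
    · rcases hd with rfl | rfl <;> (rw [hyo, hx]; rfl)
  · have hxo : ∃ o : ℤ, (0 ≤ o ∧ o ≤ 1) ∧ x0 = r * j - o := by
      rcases hx with hx | hx
      · exact ⟨0, ⟨le_rfl, by norm_num⟩, by rw [hx]; ring⟩
      · exact ⟨1, ⟨by norm_num, le_rfl⟩, hx⟩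
    obtain ⟨o, ho, hxo⟩ := hxo
    have hi := bd_i (L := L) hl hr (i := i) (by rw [← hy]; exact hy1)
    have hj := bd_j (L := L) hr1 (j := j) (by
      have : (r : ℤ) * j = x0 + o := by rw [hxo]; ring
      rw [this]
      rw [abs_le] at hx1 ⊢
      constructor <;> linarith [ho.1, ho.2])
    refine ⟨(d, (j, (o, i))), ?_, rfl, ?_⟩
    · rw [abs_le] at hi hj
      simp only [mem_product, mem_univ, mem_Icc, true_and]
      exact ⟨hj, ho, hi⟩
    · rcases hd with rfl | rfl <;> (rw [hxo, hy]; rfl)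

end BADK

open BADK

theorem t_BADK : S_BADK := by
  intro N L hN hNL δ hδ K
  have hL : 1 ≤ L := by omega
  obtain ⟨κ, hκ, hwin⟩ := win_half
  obtain ⟨C1, c1, hC1, hc1, harm⟩ := win_arm_of
    (by intro q κ n h m hm hmn c1 c2 S; exact win_blk h hm hmn c1 c2 S) κ hκ
  obtain ⟨C2, c2, hC2, hc2, hH4⟩ := H4_bound κ hκ
  obtain ⟨M3, hM3K, hM3'⟩ := choose_M (((2 * L + 1) * (2 * L + 1)) / 16) 0 C1 16 (by positivity)
    le_rfl hC1.le (by norm_num) hc1 (half_pos hδ) (max 64 K)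
  obtain ⟨M4, hM4, hM4'⟩ := choose_M (32 * L * (2 * L + 5)) (24 * (2 * L + 5)) C2
    (16 * M3) (by positivity) (by positivity) hC2.le (by positivity) hc2 (half_pos hδ) (64 * M3)
  have hM3 : 64 ≤ M3 := (le_max_left 64 K).trans hM3K
  have hMK : K ≤ M3 := (le_max_right 64 K).trans hM3K
  refine ⟨M3, M4, hMK, hM3, hM4, ?_⟩
  intro c r R hc hr hR
  have h0 : (0 : ℝ) ≤ 1 / 2 := by norm_num
  have h1 : (1 / 2 : ℝ) ≤ 1 := by norm_num
  have ok := okq h0 h1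
  have hM3p : 0 < M3 := by omega
  have hM4p : 0 < M4 := by omega
  set ρ := r / M3 with hρ
  set l := r / M4 with hl
  have hl1 : 1 ≤ l := (Nat.one_le_div_iff hM4p).2 hr
  have hlr : l * M4 ≤ r := Nat.div_mul_le_self r M4
  have hρr : ρ * M3 ≤ r := Nat.div_mul_le_self r M3
  have h64l : 64 * l ≤ ρ := by
    rw [hρ, Nat.le_div_iff_mul_le hM3p]
    calc 64 * l * M3 = l * (64 * M3) := by ring
      _ ≤ l * M4 := Nat.mul_le_mul_left _ hM4
      _ ≤ r := hlr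
  have h64ρ : 64 * ρ ≤ r := by
    calc 64 * ρ = ρ * 64 := by ring
      _ ≤ ρ * M3 := Nat.mul_le_mul_left _ hM3
      _ ≤ r := hρr
  have hr2l : r ≤ 2 * M4 * l := by
    have e1 := Nat.div_add_mod r M4
    have e2 := Nat.mod_lt r hM4p
    rw [← hl] at e1
    nlinarith
  have hr2ρ : r ≤ 2 * M3 * ρ := by
    have e1 := Nat.div_add_mod r M3
    have e2 := Nat.mod_lt r hM3p
    rw [← hρ] at e1
    nlinarith
  have hrL : r ≤ L * r := Nat.le_mul_of_pos_left r hL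
  let T1 : Finset (ℤ × ℤ) := Icc (-(L : ℤ)) L ×ˢ Icc (-(L : ℤ)) L
  let T2 : Finset (Dir × (ℤ × (ℤ × ℤ))) := (univ : Finset Dir) ×ˢ
    (Icc (-((L + 2 : ℕ) : ℤ)) ((L + 2 : ℕ) : ℤ) ×ˢ (Icc (0 : ℤ) 1 ×ˢ
      Icc (-((2 * L * M4 + 1 : ℕ) : ℤ)) ((2 * L * M4 + 1 : ℕ) : ℤ)))
  let A : ℤ × ℤ → Finset Edg → Prop := fun ξ F =>
    Crs (r * ξ.1) (r * ξ.2) (4 * ρ) (r / 2) (Cp c (↑F : Set Edg))
  let B : Dir × (ℤ × (ℤ × ℤ)) → Finset Edg → Prop := fun p F =>
    (|(cn l r p.1 p.2.1 p.2.2.1 p.2.2.2).1| ≤ (L : ℤ) * r + 1 ∧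
      |(cn l r p.1 p.2.1 p.2.2.1 p.2.2.2).2| ≤ (L : ℤ) * r + 1) ∧
      H4 p.1 (cn l r p.1 p.2.1 p.2.2.1 p.2.2.2).1 (cn l r p.1 p.2.1 p.2.2.1 p.2.2.2).2
        (8 * l) ρ (Cp c (↑F : Set Edg))
  have hcover : PF R (fun F => Bad c N L r ρ l (↑F : Set Edg)) ≤
      PF R (fun F => (∃ ξ ∈ T1, A ξ F) ∨ ∃ p ∈ T2, B p F) := by
    unfold PF
    refine Pr_mono ok fun F _ hF => ?_
    rcases hF with ⟨ζ, hz, _, hcr⟩ | ⟨d, x0, y0, i, j, hxy, _, hor, hH⟩
    · left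
      refine ⟨ζ, ?_, hcr⟩
      have h1 := abs_le.1 hz.1
      have h2 := abs_le.1 hz.2
      exact mem_product.2 ⟨mem_Icc.2 h1, mem_Icc.2 h2⟩
    · right
      obtain ⟨p, hp, hp1, hp2⟩ := cover2 (M4 := M4) hl1 (by omega) hr2l
        (by exact_mod_cast hxy) hor
      refine ⟨p, hp, ?_⟩
      show (|(cn l r p.1 p.2.1 p.2.2.1 p.2.2.2).1| ≤ (L : ℤ) * r + 1 ∧
        |(cn l r p.1 p.2.1 p.2.2.1 p.2.2.2).2| ≤ (L : ℤ) * r + 1) ∧
        H4 p.1 (cn l r p.1 p.2.1 p.2.2.1 p.2.2.2).1 (cn l r p.1 p.2.1 p.2.2.1 p.2.2.2).2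
        (8 * l) ρ (Cp c (↑F : Set Edg))
      rw [hp2, hp1]
      exact ⟨by exact_mod_cast hxy, hH⟩
  have hfalse : ∀ X : Finset Edg → Prop, (∀ F, ¬ X F) → PF R X = 0 := by
    intro X hX
    have k1 := Pr_true (p := fun _ : Edg => (1 / 2 : ℝ)) (boxE R) (A := fun _ => True)
      (fun _ _ => trivial)
    have k2 := Pr_not (p := fun _ : Edg => (1 / 2 : ℝ)) (boxE R) (fun _ => True)
    simp only [not_true_eq_false] at k2
    have k3 : PF R X = Pr (fun _ => (1 / 2 : ℝ)) (boxE R) (fun _ => False) :=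
      Pr_congr fun F _ => ⟨fun h => hX F h, fun h => h.elim⟩
    rw [k3, k2, k1, sub_self]
  have hA : ∀ ξ ∈ T1, PF R (A ξ) ≤ C1 * (16 / (M3:ℝ)) ^ c1 := by
    intro ξ hξ
    obtain ⟨hξ1, hξ2⟩ := mem_product.1 hξ
    have hξ1' : |ξ.1| ≤ (L : ℤ) := abs_le.2 (mem_Icc.1 hξ1)
    have hξ2' : |ξ.2| ≤ (L : ℤ) := abs_le.2 (mem_Icc.1 hξ2)
    have hbd : ∀ z : ℤ, |z| ≤ (L : ℤ) → |(r : ℤ) * z| + ((r / 2 : ℕ) : ℤ) + 1 ≤ R := by
      intro z hz
      rw [abs_mul, Nat.abs_cast]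
      have e1 : (r : ℤ) * |z| ≤ r * L := mul_le_mul_of_nonneg_left hz (by positivity)
      have e2 : (r : ℤ) ≤ L * r := by exact_mod_cast hrL
      have e3 : 4 * ((L : ℤ) * r) ≤ R := by exact_mod_cast hR
      have e4 : (r : ℤ) * L = L * r := by ring
      have e5 : (64 : ℤ) ≤ r := by
        have : 64 ≤ r := by omega
        exact_mod_cast this
      have e8 : 2 * (((r / 2 : ℕ) : ℤ)) ≤ r := by omega
      linarith
    have hg : ∀ e ∈ RE ((r : ℤ) * ξ.1 - (r / 2 : ℕ)) (r * ξ.1 + (r / 2 : ℕ))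
          (r * ξ.2 - (r / 2 : ℕ)) (r * ξ.2 + (r / 2 : ℕ)), gm c e ∈ boxE R := fun e he =>
      gm_mem hc he (hbd _ hξ1') (hbd _ hξ2')
    have ht := transport hc hg (fun G => Crs (r * ξ.1) (r * ξ.2) (4 * ρ) (r / 2) G)
    have h5 : PF R (A ξ) ≤ PF R (fun F => Crs (r * ξ.1) (r * ξ.2) (4 * ρ) (r / 2)
        (Cp c (↑F : Set Edg) ∩ ↑(RE ((r : ℤ) * ξ.1 - (r / 2 : ℕ)) (r * ξ.1 + (r / 2 : ℕ))
        (r * ξ.2 - (r / 2 : ℕ)) (r * ξ.2 + (r / 2 : ℕ))))) := by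
      unfold PF
      exact Pr_mono ok fun F _ hF => Crs_loc (by omega) hF
    refine h5.trans ?_
    rw [ht]
    refine ((harm (1 / 2) (r / 2) (hwin _) (4 * ρ) (r / 2) (by omega) (by omega) le_rfl _ _
      _).1).trans ?_
    refine mul_le_mul_of_nonneg_left (Real.rpow_le_rpow (by positivity) ?_ hc1.le) hC1.le
    have h3 : 0 < r / 2 := by omega
    rw [div_le_div_iff₀ (by exact_mod_cast h3) (by exact_mod_cast hM3p)]
    have h4 : 4 * ρ * M3 ≤ 16 * (r / 2) := by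
      have : 4 * ρ * M3 = 4 * (ρ * M3) := by ring
      omega
    exact_mod_cast h4
  have hB : ∀ p ∈ T2, PF R (B p) ≤ C2 * (16 * (M3:ℝ) / M4) ^ (1 + c2) := by
    rintro ⟨d, j, o, i⟩ _
    by_cases hx : |(cn l r d j o i).1| ≤ (L : ℤ) * r + 1 ∧ |(cn l r d j o i).2| ≤ (L : ℤ) * r + 1
    · set x0 := (cn l r d j o i).1 with hx0
      set y0 := (cn l r d j o i).2 with hy0
      have hbd : ∀ z : ℤ, |z| ≤ (L : ℤ) * r + 1 → |z| + ((ρ : ℕ) : ℤ) + 1 ≤ R := by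
        intro z hz
        have e2 : (r : ℤ) ≤ L * r := by exact_mod_cast hrL
        have e3 : 4 * ((L : ℤ) * r) ≤ R := by exact_mod_cast hR
        have e5 : (64 : ℤ) ≤ r := by
          have : 64 ≤ r := by omega
          exact_mod_cast this
        have e8 : 64 * (ρ : ℤ) ≤ r := by exact_mod_cast h64ρ
        linarith
      have hg : ∀ e ∈ hbE d x0 y0 ρ, gm c e ∈ boxE R := fun e he =>
        gm_mem hc (hbE_RE d x0 y0 ρ he) (hbd _ hx.1) (hbd _ hx.2)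
      have ht := transport hc hg (fun G => H4 d x0 y0 (8 * l) ρ G)
      have h5 : PF R (B (d, j, o, i)) ≤ PF R (fun F => H4 d x0 y0 (8 * l) ρ
          (Cp c (↑F : Set Edg) ∩ ↑(hbE d x0 y0 ρ))) := by
        unfold PF
        exact Pr_mono ok fun F _ hF => H4_loc.1 hF.2
      refine h5.trans ?_
      rw [ht]
      refine (hH4 (1 / 2) ρ (hwin _) (8 * l) ρ (by omega) (by omega) le_rfl d
        x0 y0 _ (Finset.Subset.refl _)).trans ?_
      refine mul_le_mul_of_nonneg_left (Real.rpow_le_rpow (by positivity) ?_ (by linarith)) hC2.le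
      have h3 : 0 < ρ := by omega
      rw [div_le_div_iff₀ (by exact_mod_cast h3) (by exact_mod_cast hM4p)]
      have h4 : 8 * l * M4 ≤ 16 * M3 * ρ := by
        calc 8 * l * M4 = 8 * (l * M4) := by ring
          _ ≤ 8 * r := by omega
          _ ≤ 8 * (2 * M3 * ρ) := by omega
          _ = 16 * M3 * ρ := by ring
      exact_mod_cast h4
    · rw [hfalse _ fun F hF => hx hF.1]
      positivity
  have hT1 : (T1.card : ℝ) = (2 * L + 1) * (2 * L + 1) := by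
    have e1 : (Icc (-(L : ℤ)) L).card = 2 * L + 1 := by rw [Int.card_Icc]; omega
    have e3 : T1.card = (2 * L + 1) * (2 * L + 1) := by
      simp only [T1, card_product, e1]
    rw [e3]
    push_cast
    ring
  have hT2 : (T2.card : ℝ) = 4 * ((2 * L + 5) * (2 * (4 * L * M4 + 3))) := by
    have e1 : (Icc (-((L + 2 : ℕ) : ℤ)) ((L + 2 : ℕ) : ℤ)).card = 2 * (L + 2) + 1 := by
      rw [Int.card_Icc]; omega
    have e2 : (Icc (-((2 * L * M4 + 1 : ℕ):ℤ)) ((2 * L * M4 + 1 : ℕ):ℤ)).card =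
        2 * (2 * L * M4 + 1) + 1 := by
      rw [Int.card_Icc]
      omega
    have e3 : (univ : Finset Dir).card = 4 := rfl
    have e5 : (Icc (0 : ℤ) 1).card = 2 := by rw [Int.card_Icc]; rfl
    have e4 : T2.card = 4 * ((2 * (L + 2) + 1) * (2 * (2 * (2 * L * M4 + 1) + 1))) := by
      simp only [T2, card_product, e1, e2, e3, e5]
    rw [e4]
    push_cast
    ring
  have s1 : PF R (fun F => ∃ ξ ∈ T1, A ξ F) ≤ δ / 2 := by
    refine (pr_biUnion h0 h1 (boxE R) T1 A).trans ((Finset.sum_le_sum hA).trans ?_)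
    rw [Finset.sum_const, nsmul_eq_mul, hT1]
    refine le_trans (le_of_eq ?_) hM3'
    have hM3r : (0:ℝ) < M3 := by exact_mod_cast hM3p
    rw [Real.rpow_add (by positivity), Real.rpow_one]
    field_simp
    ring
  have s2 : PF R (fun F => ∃ p ∈ T2, B p F) ≤ δ / 2 := by
    refine (pr_biUnion h0 h1 (boxE R) T2 B).trans ((Finset.sum_le_sum hB).trans ?_)
    rw [Finset.sum_const, nsmul_eq_mul, hT2]
    refine le_trans (le_of_eq ?_) hM4'
    ring
  have s3 := Pr_or_le ok (boxE R) (fun F => ∃ ξ ∈ T1, A ξ F) (fun F => ∃ p ∈ T2, B p F)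
  unfold PF at *
  linarith

end Pool.Agent.W450.KI
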